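import Mathlib
import Pool.Agent.Y494.PN.Defs
import Pool.Agent.Y369.PN.Lab
import Pool.Agent.Y47.PN.Tri
import Pool.Agent.Y406.PN.Anti
import Pool.Agent.Y528.PN.Even
import Pool.Agent.Y945.PN.Star
import Pool.Agent.Y975.PN.SelfSum
import Pool.Agent.Y43.PN.ColA
import Pool.Agent.Y38.PN.Colb
import Pool.Agent.Y917.PN.Conn
import Pool.Agent.Y210.PN.Vert
import Pool.Agent.Y291.PN.Face
import Pool.Agent.Y810.PN.Theta
import Pool.Agent.Y65.PN.Iso
import Pool.Agent.Y494.PN.Par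

/-!
# Project PN: assembly

The star product of a loopless connected plane cubic graph with the piece `T` multiplies the number
of 3-edge-colourings by 9 and the value of the Penrose polynomial at `-1` by 13161.
-/

set_option autoImplicit false

namespace Pool.Agent.Y494.PN

open Polynomial Pool.Agent.Results.MP_daa8b9_co.PenroseMinusOne
open Pool.Agent.Y210.PN Pool.Agent.Y291.PN Pool.Agent.Y369.PN Pool.Agent.Y38.PN Pool.Agent.Y406.PN Pool.Agent.Y43.PN Pool.Agent.Y47.PN Pool.Agent.Y528.PN Pool.Agent.Y65.PN Pool.Agent.Y810.PN Pool.Agent.Y917.PN Pool.Agent.Y945.PN Pool.Agent.Y975.PN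

section
variable {E : Type} [Fintype E] [DecidableEq E]

theorem star_exists (G : PlaneCubicGraph E) (p : E × Bool) :
    ∃ S : PlaneCubicGraph (E ⊕ Fin 18), S.rot = starRot G p := by
  refine ⟨⟨starRot G p, star_cubic G p, star_conn G p, ?_⟩, rfl⟩
  have h := G.planar
  rw [star_vert G p (star_cubic G p), star_face G p]
  have hE : Nat.card (E ⊕ Fin 18) = Nat.card E + 18 := by
    rw [Nat.card_sum, Nat.card_eq_fintype_card (α := Fin 18), Fintype.card_fin]
  rw [hE]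
  omega

theorem pen_eval (G : PlaneCubicGraph E) (p : E × Bool) (N : ℕ) :
    G.penrose.eval (N : ℤ) = ∑ u, ∑ v, KK G p N u v * YY N u v := by
  rw [penrose_lab, self_sum G p N]

theorem pen_star_eval (G : PlaneCubicGraph E) (p : E × Bool) (S : PlaneCubicGraph (E ⊕ Fin 18))
    (hS : S.rot = starRot G p) (N : ℕ) :
    S.penrose.eval (N : ℤ) = ∑ u, ∑ v, KK G p N u v * TT N u v := by
  rw [penrose_lab, ← star_sum G p N, hS]

theorem poly_eq (P Q : ℤ[X]) (h : ∀ N : ℕ, P.eval (N : ℤ) = Q.eval (N : ℤ)) : P = Q := by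
  refine Polynomial.eq_of_infinite_eval_eq P Q ?_
  refine Set.Infinite.mono (s := Set.range (fun n : ℕ => (n : ℤ))) ?_
    (Set.infinite_range_of_injective Nat.cast_injective)
  rintro _ ⟨n, rfl⟩
  exact h n

theorem pen_mul {E₁ : Type} [Fintype E₁] [DecidableEq E₁] (G : PlaneCubicGraph E) (p : E × Bool)
    (S : PlaneCubicGraph (E ⊕ Fin 18)) (hS : S.rot = starRot G p)
    (G₁ : PlaneCubicGraph E₁) (p₁ : E₁ × Bool)
    (S₁ : PlaneCubicGraph (E₁ ⊕ Fin 18)) (hS₁ : S₁.rot = starRot G₁ p₁) :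
    S.penrose * G₁.penrose = G.penrose * S₁.penrose := by
  apply poly_eq
  intro N
  obtain ⟨τ, hτ⟩ := tri N
  obtain ⟨κ, hκ⟩ := hτ (KK G p N) (KK_anti G p N) (KK_even G p N) (KK_perm G p N)
  obtain ⟨κ₁, hκ₁⟩ := hτ (KK G₁ p₁ N) (KK_anti G₁ p₁ N) (KK_even G₁ p₁ N) (KK_perm G₁ p₁ N)
  rw [eval_mul, eval_mul, pen_star_eval G p S hS, pen_star_eval G₁ p₁ S₁ hS₁, pen_eval G p,
    pen_eval G₁ p₁, hκ, hκ, hκ₁, hκ₁]
  ring

theorem col_mul' {E₁ : Type} [Fintype E₁] [DecidableEq E₁] (G : PlaneCubicGraph E) (hG : Loopless G)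
    (p : E × Bool) (S : PlaneCubicGraph (E ⊕ Fin 18)) (hS : S.rot = starRot G p)
    (G₁ : PlaneCubicGraph E₁) (hG₁ : Loopless G₁) (p₁ : E₁ × Bool)
    (S₁ : PlaneCubicGraph (E₁ ⊕ Fin 18)) (hS₁ : S₁.rot = starRot G₁ p₁) :
    S.numColourings * G₁.numColourings = G.numColourings * S₁.numColourings := by
  have hSl : Loopless S := by
    intro x; rw [hS]; exact star_loopless G hG p x
  have hSl₁ : Loopless S₁ := by
    intro x; rw [hS₁]; exact star_loopless G₁ hG₁ p₁ x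
  obtain ⟨α, h1, h2⟩ := col_mul G p
  obtain ⟨α₁, h3, h4⟩ := col_mul G₁ p₁
  rw [col_eq S hSl, col_eq S₁ hSl₁, hS, hS₁, col_star, col_star, col_self G hG p,
    col_self G₁ hG₁ p₁, h1, h2, h3, h4]
  ring
end


theorem base₀ : ∃ (E : Type) (_ : Fintype E) (_ : DecidableEq E) (G : PlaneCubicGraph E),
    Nat.card E = 21 ∧ Loopless G ∧ G.numColourings = 54 ∧ G.penrose.eval (-1) = -78966 :=
  ⟨Fin 21, inferInstance, inferInstance, G₀, Nat.card_fin 21, G₀_loopless, numColourings_eq,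
    penrose_eval⟩

theorem polyArith (A B C D : ℤ[X]) (h : A * B = C * D) (h1 : B.eval (-1) = -6)
    (h2 : D.eval (-1) = -78966) :
    A.eval (-1) * (-6) = C.eval (-1) * (-78966) := by
  have h := congrArg (fun P => Polynomial.eval (-1) P) h
  simp only [eval_mul] at h
  rw [h1, h2] at h
  exact h

theorem natArith (a b c d : ℕ) (h : a * b = c * d) (hb : b = 6) (hd : d = 54) :
    a * 6 = c * 54 := by
  rw [hb, hd] at h
  exact h

theorem step₀ (E : Type) [Fintype E] [DecidableEq E] (G : PlaneCubicGraph E) (p : E × Bool)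
    (hG : Loopless G) : ∃ S : PlaneCubicGraph (E ⊕ Fin 18), Loopless S ∧
      S.numColourings * 6 = G.numColourings * 54 ∧
      S.penrose.eval (-1) * (-6) = G.penrose.eval (-1) * (-78966) := by
  obtain ⟨θ, hθ⟩ := theta_ex
  obtain ⟨hθl, hθc, hθp⟩ := theta_val θ hθ
  obtain ⟨S, hS⟩ := star_exists G p
  obtain ⟨S₁, hS₁⟩ := star_exists θ (0, false)
  obtain ⟨h1, h2⟩ := theta_star θ hθ S₁ hS₁
  have hSl : Loopless S := by
    intro x; rw [hS]; exact star_loopless G hG _ x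
  exact ⟨S, hSl, natArith _ _ _ _ (col_mul' G hG p S hS θ hθl (0, false) S₁ hS₁) hθc
    (h1.trans numColourings_eq), polyArith _ _ _ _ (pen_mul G p S hS θ (0, false) S₁ hS₁) hθp
    ((congrArg (fun P => Polynomial.eval (-1) P) h2).trans penrose_eval)⟩

theorem chain (n : ℕ) : ∃ (E : Type) (_ : Fintype E) (_ : DecidableEq E) (G : PlaneCubicGraph E),
    Nat.card E = 21 + 18 * n ∧ Loopless G ∧ G.numColourings = 54 * 9 ^ n ∧
      G.penrose.eval (-1) = -78966 * 13161 ^ n := by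
  induction n with
  | zero =>
    obtain ⟨E, hF, hD, G, hE, hG, hc, hp⟩ := base₀
    exact ⟨E, hF, hD, G, by rw [hE], hG, by rw [hc]; norm_num, by rw [hp]; norm_num⟩
  | succ n ih =>
    obtain ⟨E, hF, hD, G, hE, hG, hc, hp⟩ := ih
    have hne : Nonempty E := by
      apply (Nat.card_pos_iff.1 _).1
      omega
    obtain ⟨e⟩ := hne
    obtain ⟨S, hSl, h1, h2⟩ := step₀ E G (e, false) hG
    refine ⟨E ⊕ Fin 18, inferInstance, inferInstance, S, ?_, hSl, ?_, ?_⟩
    · rw [Nat.card_sum, hE, Nat.card_fin]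
      ring
    · rw [hc] at h1
      have : S.numColourings * 6 = (54 * 9 ^ (n + 1)) * 6 := by rw [h1]; ring
      exact Nat.eq_of_mul_eq_mul_right (by norm_num) this
    · rw [hp] at h2
      have : S.penrose.eval (-1) * (-6) = (-78966 * 13161 ^ (n + 1)) * (-6) := by
        rw [h2]; ring
      exact mul_right_cancel₀ (by norm_num) this

theorem ndvd (D n : ℕ) (hD : 1 ≤ D) (hn : D < 3 ^ (n + 1)) :
    ¬ (((54 * 9 ^ n : ℕ) : ℤ) ∣ (D : ℤ) * (-78966 * 13161 ^ n)) := by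
  intro h
  have h1 : ((3 : ℤ) ^ (2 * n + 3)) ∣ (D : ℤ) * (-78966 * 13161 ^ n) := by
    refine dvd_trans ⟨2, ?_⟩ h
    push_cast
    rw [pow_add, pow_mul]
    ring
  have h2 : (D : ℤ) * (-78966 * 13161 ^ n) = (3 : ℤ) ^ (n + 2) * (-(D * (2 * 4387 ^ (n + 1)))) := by
    have : (13161 : ℤ) = 3 * 4387 := by norm_num
    rw [this, mul_pow, pow_succ (4387 : ℤ), pow_add]
    ring
  rw [h2, show 2 * n + 3 = (n + 2) + (n + 1) by ring, pow_add] at h1
  have h3 : (3 : ℤ) ^ (n + 1) ∣ -(D * (2 * 4387 ^ (n + 1))) :=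
    Int.dvd_of_mul_dvd_mul_left (by positivity) h1 |> id
  rw [dvd_neg] at h3
  have hcop : IsCoprime ((3 : ℤ) ^ (n + 1)) (2 * 4387 ^ (n + 1)) := by
    apply IsCoprime.pow_left
    apply IsCoprime.mul_right
    · exact ⟨1, -1, by norm_num⟩
    · apply IsCoprime.pow_right
      exact ⟨-1462, 1, by norm_num⟩
  have h4 : (3 : ℤ) ^ (n + 1) ∣ (D : ℤ) := hcop.dvd_of_dvd_mul_right h3
  have h5 := Int.le_of_dvd (by exact_mod_cast hD) h4
  have h6 : (D : ℤ) < 3 ^ (n + 1) := by exact_mod_cast hn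
  omega

end Pool.Agent.Y494.PN
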